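import Pool.Agent.Q256.EC.Stm

/-!
# Project EC of helper256, jobs ORB and WEO
-/

set_option autoImplicit false

namespace Pool.Agent.Q210.EC

open MvPolynomial Pool.Agent.Q256.EC

/-- Job ORB of project EC. -/
theorem orb : S_POL → S_RAT → S_ORB := by
  intro hP hR K _ ι _ _ g u w h
  constructor
  · intro k
    have h1 : ∀ i, ∃ Q ∈ idealOfVars ι K ^ 2, ∃ C0 : ℝ, 0 ≤ C0 ∧ ∀ n,
        ‖constantCoeff u * w (n + 1) i - ∑ j, lin g i j * w n j - eval (w n) Q‖ ≤ C0 * ‖w n‖ ^ k := by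
      intro i
      obtain ⟨Q, hQ, hQ2⟩ := hR K ι (g i) u (h.g0 i) h.u0 k
      obtain ⟨C0, hC0, hC1⟩ := (hP K ι _).1 k hQ2
      refine ⟨Q, hQ, C0, hC0, fun n => ?_⟩
      have h2 := hC1 (w n) (h.le n)
      have h3 : eval (w n) (C (constantCoeff u) * g i -
          u * (∑ j, C (coeff (Finsupp.single j 1) (g i)) * X j + Q)) = eval (w n) u *
          (constantCoeff u * w (n + 1) i - ∑ j, lin g i j * w n j - eval (w n) Q) := by
        simp only [map_sub, map_mul, map_add, map_sum, eval_C, eval_X, lin, Matrix.of_apply]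
        rw [← h.step n i]; ring
      rw [h3, norm_mul, h.unit n, one_mul] at h2
      exact h2
    choose Q hQ Cc hC0 hC1 using h1
    refine ⟨Q, hQ, ∑ i, Cc i, Finset.sum_nonneg (fun i _ => hC0 i), fun n i => (hC1 i n).trans ?_⟩
    have h4 : Cc i ≤ ∑ i, Cc i := Finset.single_le_sum (fun i _ => hC0 i) (Finset.mem_univ i)
    exact mul_le_mul_of_nonneg_right h4 (by positivity)
  · have h1 : ∀ i, ∃ C0 : ℝ, 0 ≤ C0 ∧ ∀ n, ‖w (n + 1) i‖ ≤ C0 * ‖w n‖ := by
      intro i
      have hmem : g i ∈ idealOfVars ι K ^ 1 := by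
        rw [mem_pow_idealOfVars_iff']
        intro x hx
        have hx0 : x = 0 := by
          have : Finsupp.degree x = 0 := by omega
          exact (Finsupp.degree_eq_zero_iff x).1 this
        rw [hx0]
        exact h.g0 i
      obtain ⟨C0, hC0, hC1⟩ := (hP K ι (g i)).1 1 hmem
      refine ⟨C0, hC0, fun n => ?_⟩
      have h2 := hC1 (w n) (h.le n)
      rw [← h.step n i, norm_mul, h.unit n, one_mul, pow_one] at h2
      exact h2
    choose Cc hC0 hC1 using h1
    have hS : 0 ≤ ∑ i, Cc i := Finset.sum_nonneg (fun i _ => hC0 i)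
    refine ⟨∑ i, Cc i, hS, fun n => ?_⟩
    rw [pi_norm_le_iff_of_nonneg (mul_nonneg hS (norm_nonneg _))]
    intro i
    refine (hC1 i n).trans ?_
    have h4 : Cc i ≤ ∑ i, Cc i := Finset.single_le_sum (fun i _ => hC0 i) (Finset.mem_univ i)
    exact mul_le_mul_of_nonneg_right h4 (norm_nonneg _)

/-- Job WEO of project EC. -/
theorem weo : S_ORB → S_WEL → S_WEM → S_WEV → S_WEO := by
  intro hO hL hM hV K _ _ _ _ ι _ _ g u w h hs σ C hσ hσ1 hw k hk
  induction k, hk using Nat.le_induction with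
  | base =>
    intro i
    refine (hM K).2.2.2.2.1 (σ ^ 1) C _ (fun n => ?_)
    rw [pow_one]
    exact (norm_le_pi_norm (w n) i).trans (hw n)
  | succ k hk ih =>
    obtain ⟨Q, hQ, C', hC', hQ2⟩ := (hO K ι g u w h).1 (k + 1)
    refine hL K ι (lin g) (constantCoeff u) (σ ^ (k + 1)) (fun i n => w n i) (by positivity) h.u0 hs ?_
    intro i
    have h1 := (hV K ι σ C k w hσ hσ1 hk hw ih (Q i)).2 (hQ i)
    have h2 : We (σ ^ (k + 1)) (fun n => constantCoeff u * w (n + 1) i - ∑ j, lin g i j * w n j -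
        eval (w n) (Q i)) := by
      refine (hM K).2.2.2.2.1 _ (C' * C ^ (k + 1)) _ (fun n => ?_)
      refine (hQ2 n i).trans ?_
      have h3 : ‖w n‖ ^ (k + 1) ≤ (C * σ ^ n) ^ (k + 1) := pow_le_pow_left₀ (norm_nonneg _) (hw n) _
      have h4 : (C * σ ^ n) ^ (k + 1) = C ^ (k + 1) * (σ ^ (k + 1)) ^ n := by
        rw [mul_pow, ← pow_mul, ← pow_mul, mul_comm n (k + 1)]
      rw [h4] at h3
      have := mul_le_mul_of_nonneg_left h3 hC'
      rwa [← mul_assoc] at this
    have h3 := (hM K).1 _ _ _ h2 h1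
    have h4 : (fun n => constantCoeff u * w (n + 1) i - ∑ j, lin g i j * w n j -
        eval (w n) (Q i) + eval (w n) (Q i)) =
        fun n => constantCoeff u * w (n + 1) i - ∑ j, lin g i j * w n j := by
      funext n; ring
    rw [h4] at h3
    exact h3

end Pool.Agent.Q210.EC
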