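import Pool.Agent.Q256.EC.Stm

/-!
# Project EC of helper256, jobs TEV and TEI
-/

set_option autoImplicit false

namespace Pool.Agent.Q210.EC

open MvPolynomial Pool.Agent.Q256.EC

/-- linear combinations -/
theorem te_sum (hM : S_TEM) {K : Type} [NormedField K] {t : ℕ → K} (ht : ∀ n, ‖t n‖ ≤ 1) {m : ℕ}
    {α : Type} (s : Finset α) (c : α → K) (a : α → ℕ → K) (h : ∀ i ∈ s, Te t m (a i)) :
    Te t m (fun n => ∑ i ∈ s, c i * a i n) := by
  classical
  induction s using Finset.induction_on with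
  | empty =>
    simp only [Finset.sum_empty]
    exact (hM K t ht).2.2.1 m 0
  | insert i s hi ih =>
    simp only [Finset.sum_insert hi]
    exact (hM K t ht).1 m _ _ ((hM K t ht).2.1 m (c i) (a i) (h i (Finset.mem_insert_self i s)))
      (ih (fun j hj => h j (Finset.mem_insert_of_mem hj)))

/-- splitting off a variable -/
theorem exists_add_single {ι : Type} [DecidableEq ι] {d : ℕ} (s : ι →₀ ℕ) (hs : s.degree = d + 1) :
    ∃ (s' : ι →₀ ℕ) (i : ι), s = s' + Finsupp.single i 1 ∧ s'.degree = d := by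
  obtain ⟨i, hi⟩ : ∃ i, s i ≠ 0 := by
    by_contra hcon
    push Not at hcon
    have : s = 0 := by ext i; simpa using hcon i
    rw [this] at hs
    simp at hs
  obtain ⟨s', hs'⟩ : ∃ s' : ι →₀ ℕ, s' = s - Finsupp.single i 1 := ⟨_, rfl⟩
  have hss : s = s' + Finsupp.single i 1 := by
    rw [hs']
    ext j
    simp only [Finsupp.coe_add, Finsupp.coe_tsub, Pi.add_apply, Pi.sub_apply]
    by_cases hj : j = i
    · subst hj
      simp only [Finsupp.single_eq_same]
      omega
    · rw [Finsupp.single_eq_of_ne hj]; simp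
  have hdeg : s'.degree = d := by
    have h1 : s.degree = s'.degree + 1 := by
      rw [hss, map_add, Finsupp.degree_single]
    omega
  exact ⟨s', i, hss, hdeg⟩

/-- Job TEV of project EC. -/
theorem tev : S_TEM → S_TEV := by
  classical
  intro hM K _ t ht ι _ D k w hk hw hwt G
  obtain ⟨hM1, hM2, hM3, hM4, hM5, hM6⟩ := hM K t ht
  -- the monomials
  have hmon : ∀ (d : ℕ) (s : ι →₀ ℕ), s.degree = d + 1 →
      (∃ A : ℝ, ∀ n, ‖eval (w n) (monomial s (1 : K))‖ ≤ A * ‖t n‖ ^ (d + 1)) ∧
      Te t (k + d) (fun n => eval (w n) (monomial s (1 : K))) := by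
    intro d
    induction d with
    | zero =>
      intro s hs
      obtain ⟨s', i, hss, hdeg⟩ := exists_add_single s hs
      have hi : s = Finsupp.single i 1 := by
        rw [hss, (Finsupp.degree_eq_zero_iff s').1 hdeg, zero_add]
      have he : ∀ n, eval (w n) (monomial s (1 : K)) = w n i := by
        intro n
        rw [hi]
        exact eval_X i
      simp only [he]
      refine ⟨⟨D, fun n => ?_⟩, hwt i⟩
      rw [zero_add, pow_one]
      exact (norm_le_pi_norm (w n) i).trans (hw n)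
    | succ d ih =>
      intro s hs
      obtain ⟨s', i, hss, hdeg⟩ := exists_add_single s hs
      obtain ⟨⟨A, hA⟩, hT⟩ := ih s' hdeg
      have he : ∀ n, eval (w n) (monomial s (1 : K)) = eval (w n) (monomial s' (1 : K)) * w n i := by
        intro n
        have h1 : monomial s (1 : K) = monomial s' (1 : K) * X i := by
          rw [hss, X, monomial_mul, one_mul]
        rw [h1, map_mul, eval_X]
      simp only [he]
      have hB : ∀ n, ‖w n i‖ ≤ D * ‖t n‖ ^ 1 := fun n => by
        rw [pow_one]; exact (norm_le_pi_norm (w n) i).trans (hw n)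
      refine ⟨⟨A * D, fun n => ?_⟩, ?_⟩
      · rw [norm_mul]
        have h1 := hA n
        have h2 := hB n
        calc ‖eval (w n) (monomial s' (1 : K))‖ * ‖w n i‖ ≤ (A * ‖t n‖ ^ (d + 1)) * (D * ‖t n‖ ^ 1) :=
              mul_le_mul h1 h2 (norm_nonneg _) ((norm_nonneg _).trans h1)
          _ = _ := by ring
      · exact hM6 (d + 1) 1 (k + d) k (k + (d + 1)) A D _ _ hk (by omega) (by omega) hA hB hT (hwt i)
  -- sums
  have hsum : ∀ m : ℕ, (∀ s ∈ G.support, Te t m (fun n => eval (w n) (monomial s (1 : K)))) →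
      Te t m (fun n => eval (w n) G) := by
    intro m h
    have h1 : (fun n => eval (w n) G) =
        fun n => ∑ s ∈ G.support, coeff s G * eval (w n) (monomial s (1 : K)) := by
      funext n
      conv_lhs => rw [G.as_sum]
      rw [map_sum]
      refine Finset.sum_congr rfl (fun s _ => ?_)
      rw [eval_monomial, eval_monomial, one_mul]
    rw [h1]
    exact te_sum hM ht G.support (fun s => coeff s G) _ h
  have hzero : ∀ (m : ℕ), Te t m (fun n => eval (w n) (monomial (0 : ι →₀ ℕ) (1 : K))) := by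
    intro m
    have h1 : (fun n => eval (w n) (monomial (0 : ι →₀ ℕ) (1 : K))) = fun _ => (1 : K) := by
      funext n; simp
    rw [h1]
    exact hM3 m 1
  constructor
  · apply hsum
    intro s _
    rcases Nat.eq_zero_or_pos s.degree with h0 | h0
    · rw [(Finsupp.degree_eq_zero_iff s).1 h0]
      exact hzero k
    · obtain ⟨d, hd⟩ : ∃ d, s.degree = d + 1 := ⟨s.degree - 1, by omega⟩
      exact hM4 k (k + d) _ (by omega) (hmon d s hd).2
  · intro hG
    apply hsum
    intro s hs
    have h2 := (mem_pow_idealOfVars_iff 2 G).1 hG s hs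
    obtain ⟨d, hd⟩ : ∃ d, s.degree = d + 1 := ⟨s.degree - 1, by omega⟩
    exact hM4 (k + 1) (k + d) _ (by omega) (hmon d s hd).2

/-- Job TEI of project EC. -/
theorem tei : S_POL → S_ORB → S_TEM → S_TEV → S_TES → S_TEI := by
  classical
  intro hP hO hM hV hS K _ _ ι _ _ g u w h E B v t D hE hB hv hEt ht hw
  obtain ⟨hM1, hM2, hM3, hM4, hM5, hM6⟩ := hM K t ht
  have hD0 : ∀ n, ‖w n‖ ≤ max D 0 * ‖t n‖ := fun n =>
    (hw n).trans (mul_le_mul_of_nonneg_right (le_max_left _ _) (norm_nonneg _))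
  obtain ⟨D1, hD1⟩ : ∃ D1 : ℝ, D1 = max D 0 := ⟨_, rfl⟩
  rw [← hD1] at hD0
  have hD1n : 0 ≤ D1 := by rw [hD1]; exact le_max_right _ _
  obtain ⟨a, ha⟩ : ∃ a, v a ≠ 0 := by
    by_contra hcon
    push Not at hcon
    exact hv (funext hcon)
  have hc0 : constantCoeff u * v a ≠ 0 := mul_ne_zero h.u0 ha
  -- the recursion for `t`
  have hrec : ∀ (Q : ι → MvPolynomial ι K) (n : ℕ), t (n + 1) = (constantCoeff u * v a)⁻¹ *
      ∑ i, E a i * (eval (w n) (Q i) + (constantCoeff u * w (n + 1) i - ∑ j, lin g i j * w n j -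
        eval (w n) (Q i))) := by
    intro Q n
    have h1 : ∀ i, eval (w n) (Q i) + (constantCoeff u * w (n + 1) i - ∑ j, lin g i j * w n j -
        eval (w n) (Q i)) = constantCoeff u * w (n + 1) i - ∑ j, lin g i j * w n j := fun i => by ring
    simp only [h1]
    have h2 : ∑ i, E a i * (constantCoeff u * w (n + 1) i - ∑ j, lin g i j * w n j) =
        constantCoeff u * (E.mulVec (w (n + 1))) a - ((E * lin g).mulVec (w n)) a := by
      rw [← Matrix.mulVec_mulVec]
      simp only [Matrix.mulVec, dotProduct, mul_sub, Finset.sum_sub_distrib, Finset.mul_sum]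
      congr 1
      refine Finset.sum_congr rfl (fun i _ => by ring)
    rw [h2, hE, hEt]
    simp only [Matrix.zero_mulVec, Pi.zero_apply, sub_zero, Pi.smul_apply, smul_eq_mul]
    have hu := h.u0
    field_simp
  -- the square bound for `t`
  obtain ⟨D2, hD2, ht2⟩ : ∃ D2 : ℝ, 0 ≤ D2 ∧ ∀ n, ‖t (n + 1)‖ ≤ D2 * ‖t n‖ ^ 2 := by
    obtain ⟨Q, hQ, C0, hC0, hC1⟩ := (hO K ι g u w h).1 2
    have h1 : ∀ i, ∃ Ci : ℝ, 0 ≤ Ci ∧ ∀ x : ι → K, ‖x‖ ≤ 1 → ‖eval x (Q i)‖ ≤ Ci * ‖x‖ ^ 2 :=
      fun i => (hP K ι (Q i)).1 2 (hQ i)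
    choose Ci hCi hCi2 using h1
    refine ⟨‖(constantCoeff u * v a)⁻¹‖ * ∑ i, ‖E a i‖ * ((Ci i + C0) * D1 ^ 2),
      mul_nonneg (norm_nonneg _) (Finset.sum_nonneg (fun i _ => by have := hCi i; positivity)), fun n => ?_⟩
    rw [hrec Q n, norm_mul, mul_assoc]
    apply mul_le_mul_of_nonneg_left _ (norm_nonneg _)
    rw [Finset.sum_mul]
    refine (norm_sum_le _ _).trans (Finset.sum_le_sum (fun i _ => ?_))
    rw [norm_mul, mul_assoc]
    apply mul_le_mul_of_nonneg_left _ (norm_nonneg _)
    refine (norm_add_le _ _).trans ?_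
    have h3 := hCi2 i (w n) (h.le n)
    have h4 := hC1 n i
    have h5 : ‖w n‖ ^ 2 ≤ D1 ^ 2 * ‖t n‖ ^ 2 := by
      rw [← mul_pow]
      exact pow_le_pow_left₀ (norm_nonneg _) (hD0 n) 2
    have h6 : Ci i * ‖w n‖ ^ 2 + C0 * ‖w n‖ ^ 2 ≤ (Ci i + C0) * (D1 ^ 2 * ‖t n‖ ^ 2) := by
      rw [← add_mul]
      exact mul_le_mul_of_nonneg_left h5 (by have := hCi i; positivity)
    calc _ ≤ Ci i * ‖w n‖ ^ 2 + C0 * ‖w n‖ ^ 2 := add_le_add h3 h4
      _ ≤ (Ci i + C0) * (D1 ^ 2 * ‖t n‖ ^ 2) := h6
      _ = _ := by ring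
  -- `t` itself
  have htt : ∀ m : ℕ, Te t m t := fun m => ⟨Polynomial.X, 0, fun n => by simp⟩
  -- the induction
  have hone : ∀ k : ℕ, 1 ≤ k → ∀ i, Te t k (fun n => w n i) := by
    intro k hk
    induction k, hk using Nat.le_induction with
    | base =>
      intro i
      refine hM5 1 D _ (fun n => ?_)
      rw [pow_one]
      exact (norm_le_pi_norm (w n) i).trans (hw n)
    | succ k hk ih =>
      obtain ⟨Q, hQ, C0, hC0, hC1⟩ := (hO K ι g u w h).1 (k + 1)
      have hr : ∀ i, Te t (k + 1) (fun n => constantCoeff u * w (n + 1) i -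
          ∑ j, lin g i j * w n j - eval (w n) (Q i)) := by
        intro i
        refine hM5 (k + 1) (C0 * D1 ^ (k + 1)) _ (fun n => ?_)
        refine (hC1 n i).trans ?_
        rw [mul_assoc, ← mul_pow]
        exact mul_le_mul_of_nonneg_left (pow_le_pow_left₀ (norm_nonneg _) (hD0 n) _) hC0
      have hq : ∀ i, Te t (k + 1) (fun n => eval (w n) (Q i)) := fun i =>
        (hV K t ht ι D k w hk hw ih (Q i)).2 (hQ i)
      have ht1 : Te t (k + 1) (fun n => t (n + 1)) := by
        have h1 : (fun n => t (n + 1)) = fun n => (constantCoeff u * v a)⁻¹ *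
          ∑ i, E a i * (eval (w n) (Q i) + (constantCoeff u * w (n + 1) i - ∑ j, lin g i j * w n j -
            eval (w n) (Q i))) := funext (hrec Q)
        rw [h1]
        refine hM2 _ _ _ ?_
        exact te_sum hM ht Finset.univ (fun i => E a i) (fun i n => eval (w n) (Q i) +
          (constantCoeff u * w (n + 1) i - ∑ j, lin g i j * w n j - eval (w n) (Q i)))
          (fun i _ => hM1 _ _ _ (hq i) (hr i))
      have hw1 : ∀ i, Te t (k + 1) (fun n => w (n + 1) i) := fun i =>
        hS K t ht D2 k hD2 hk ht2 ht1 _ (ih i)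
      have hMw : ∀ i, Te t (k + 1) (fun n => ∑ j, lin g i j * w n j) := by
        intro i
        have h1 : (fun n => ∑ j, lin g i j * w n j) = fun n => constantCoeff u * w (n + 1) i +
            ((-1) * eval (w n) (Q i) + (-1) * (constantCoeff u * w (n + 1) i -
              ∑ j, lin g i j * w n j - eval (w n) (Q i))) := by
          funext n; ring
        rw [h1]
        exact hM1 _ _ _ (hM2 _ _ _ (hw1 i)) (hM1 _ _ _ (hM2 _ _ _ (hq i)) (hM2 _ _ _ (hr i)))
      intro i
      have h1 : (fun n => w n i) = fun n => ∑ j, B i j * (∑ l, lin g j l * w n l) + v i * t n := by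
        funext n
        have h2 : (B * lin g).mulVec (w n) = w n - t n • v := by
          rw [hB, Matrix.sub_mulVec, Matrix.one_mulVec, hEt]
        have h3 : ((B * lin g).mulVec (w n)) i = ∑ j, B i j * (∑ l, lin g j l * w n l) := by
          rw [← Matrix.mulVec_mulVec]
          simp only [Matrix.mulVec, dotProduct]
        rw [← h3, h2]
        simp only [Pi.sub_apply, Pi.smul_apply, smul_eq_mul]
        ring
      rw [h1]
      exact hM1 _ _ _ (te_sum hM ht Finset.univ (fun j => B i j) (fun j n => ∑ l, lin g j l * w n l)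
        (fun j _ => hMw j)) (hM2 _ _ _ (htt _))
  intro k i
  rcases Nat.eq_zero_or_pos k with hk | hk
  · exact hM4 k 1 _ (by omega) (hone 1 le_rfl i)
  · exact hone k hk i

end Pool.Agent.Q210.EC
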